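import Mathlib

/-!
# Mertens type bounds: `W N = ∑_{p ≤ N} 1/p = log log N + O(1)` and
`∑_{n ≤ N} z ^ ω(n) / n ≤ exp (z (W N + 1))`
-/

namespace Pool.Agent.Helper16.UB

open Finset

/-- primes up to `n` -/
def PL (n : ℕ) : Finset ℕ := (Icc 1 n).filter Nat.Prime

lemma mem_PL {n p : ℕ} : p ∈ PL n ↔ p ≤ n ∧ p.Prime := by
  unfold PL
  rw [Finset.mem_filter, Finset.mem_Icc]
  constructor
  · rintro ⟨⟨_, h⟩, h2⟩
    exact ⟨h, h2⟩
  · rintro ⟨h, h2⟩
    exact ⟨⟨h2.pos, h⟩, h2⟩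

/-- `∑_{p ≤ n} 1/p` -/
noncomputable def W (n : ℕ) : ℝ := ∑ p ∈ PL n, 1 / (p : ℝ)

/-- `∑_{p ≤ n} log p / p` -/
noncomputable def Aa (n : ℕ) : ℝ := ∑ p ∈ PL n, Real.log p / (p : ℝ)

/-- Mertens upper bound -/
lemma Aa_le (n : ℕ) (hn : 1 ≤ n) : Aa n ≤ Real.log n + Real.log 4 := by
  classical
  have hnR : (0 : ℝ) < n := by exact_mod_cast hn
  unfold Aa
  set S := PL n with hS
  have h1 : ∑ p ∈ S, Real.log p * ((n / p : ℕ) : ℝ) ≤ n * Real.log n := by
    have e1 : ∑ p ∈ S, Real.log p * ((n / p : ℕ) : ℝ) =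
        ∑ m ∈ Ioc 0 n, ∑ p ∈ S.filter (fun p => p ∣ m), Real.log p := by
      have e2 : ∀ p ∈ S, Real.log p * ((n / p : ℕ) : ℝ) =
          ∑ m ∈ Ioc 0 n, if p ∣ m then Real.log p else 0 := by
        intro p _
        rw [← Finset.sum_filter, Finset.sum_const, Nat.Ioc_filter_dvd_card_eq_div, nsmul_eq_mul]
        ring
      rw [Finset.sum_congr rfl e2, Finset.sum_comm]
      apply Finset.sum_congr rfl
      intro m _
      exact (Finset.sum_filter _ _).symm
    rw [e1]
    have e3 : ∀ m ∈ Ioc 0 n, ∑ p ∈ S.filter (fun p => p ∣ m), Real.log p ≤ Real.log n := by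
      intro m hm
      rw [Finset.mem_Ioc] at hm
      have h2 : ∑ p ∈ S.filter (fun p => p ∣ m), Real.log p ≤
          ∑ d ∈ m.divisors, ArithmeticFunction.vonMangoldt d := by
        have h3 : ∀ p ∈ S.filter (fun p => p ∣ m), Real.log p = ArithmeticFunction.vonMangoldt p := by
          intro p hp
          rw [Finset.mem_filter, hS, mem_PL] at hp
          rw [ArithmeticFunction.vonMangoldt_apply_prime hp.1.2]
        rw [Finset.sum_congr rfl h3]
        apply Finset.sum_le_sum_of_subset_of_nonneg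
        · intro p hp
          rw [Finset.mem_filter] at hp
          rw [Nat.mem_divisors]
          exact ⟨hp.2, by omega⟩
        · intro _ _ _
          exact ArithmeticFunction.vonMangoldt_nonneg
      rw [ArithmeticFunction.vonMangoldt_sum] at h2
      refine h2.trans ?_
      apply Real.log_le_log (by exact_mod_cast hm.1)
      exact_mod_cast hm.2
    refine (Finset.sum_le_sum e3).trans ?_
    rw [Finset.sum_const, Nat.card_Ioc, nsmul_eq_mul, Nat.sub_zero]
  have h2 : ∑ p ∈ S, Real.log p ≤ Real.log 4 * n := by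
    have := Chebyshev.theta_le_log4_mul_x (x := (n : ℝ)) hnR.le
    rw [Chebyshev.theta_eq_sum_Icc] at this
    refine le_trans ?_ this
    rw [Nat.floor_natCast, hS]
    apply Finset.sum_le_sum_of_subset_of_nonneg
    · intro p hp
      rw [mem_PL] at hp
      rw [Finset.mem_filter, Finset.mem_Icc]
      exact ⟨⟨by omega, hp.1⟩, hp.2⟩
    · intro p _ _
      exact Real.log_natCast_nonneg p
  have h3 : n * ∑ p ∈ S, Real.log p / p ≤ n * (Real.log n + Real.log 4) := by
    have e1 : n * ∑ p ∈ S, Real.log p / p ≤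
        ∑ p ∈ S, (Real.log p * ((n / p : ℕ) : ℝ) + Real.log p) := by
      rw [Finset.mul_sum]
      apply Finset.sum_le_sum
      intro p hp
      rw [hS, mem_PL] at hp
      have hlog : 0 ≤ Real.log p := Real.log_natCast_nonneg p
      have hp0 : (0 : ℝ) < p := by exact_mod_cast hp.2.pos
      have hfl : (n : ℝ) / p ≤ ((n / p : ℕ) : ℝ) + 1 := by
        rw [div_le_iff₀ hp0]
        have : n < (n / p + 1) * p := by
          have := Nat.lt_div_mul_add (a := n) hp.2.pos
          linarith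
        exact_mod_cast this.le
      calc (n : ℝ) * (Real.log p / p) = Real.log p * (n / p) := by ring
        _ ≤ Real.log p * (((n / p : ℕ) : ℝ) + 1) := mul_le_mul_of_nonneg_left hfl hlog
        _ = Real.log p * ((n / p : ℕ) : ℝ) + Real.log p := by ring
    rw [Finset.sum_add_distrib] at e1
    linarith
  exact le_of_mul_le_mul_left h3 hnR

lemma PL_succ (n : ℕ) : PL (n + 1) = if (n + 1).Prime then insert (n + 1) (PL n) else PL n := by
  ext p
  split_ifs with h
  · rw [mem_insert, mem_PL, mem_PL]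
    constructor
    · rintro ⟨h1, h2⟩
      by_cases hp : p = n + 1
      · exact Or.inl hp
      · exact Or.inr ⟨by omega, h2⟩
    · rintro (rfl | ⟨h1, h2⟩)
      · exact ⟨le_refl _, h⟩
      · exact ⟨by omega, h2⟩
  · rw [mem_PL, mem_PL]
    constructor
    · rintro ⟨h1, h2⟩
      refine ⟨?_, h2⟩
      by_contra h3
      have : p = n + 1 := by omega
      rw [this] at h2
      exact h h2
    · rintro ⟨h1, h2⟩
      exact ⟨by omega, h2⟩

lemma sum_PL_succ (n : ℕ) (f : ℕ → ℝ) :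
    ∑ p ∈ PL (n + 1), f p = ∑ p ∈ PL n, f p + if (n + 1).Prime then f (n + 1) else 0 := by
  rw [PL_succ]
  split_ifs with h
  · rw [sum_insert, add_comm]
    rw [mem_PL]
    omega
  · rw [add_zero]

/-- Abel summation step -/
lemma step (n : ℕ) (hn : 2 ≤ n) :
    W (n + 1) - Aa (n + 1) / Real.log (n + 1) - (W n - Aa n / Real.log n) =
      Aa n * (1 / Real.log n - 1 / Real.log (n + 1)) := by
  have h1 : (0 : ℝ) < Real.log (n + 1) := Real.log_pos (by
    have : (2 : ℝ) ≤ n := by exact_mod_cast hn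
    linarith)
  have hW := sum_PL_succ n (fun p => 1 / (p : ℝ))
  have hA := sum_PL_succ n (fun p => Real.log p / (p : ℝ))
  have hW' : W (n + 1) = W n + if (n + 1).Prime then 1 / ((n + 1 : ℕ) : ℝ) else 0 := hW
  have hA' : Aa (n + 1) = Aa n +
    if (n + 1).Prime then Real.log ((n + 1 : ℕ) : ℝ) / ((n + 1 : ℕ) : ℝ) else 0 := hA
  rw [hW', hA']
  have h2 : (0 : ℝ) < (n : ℝ) + 1 := by positivity
  split_ifs with h
  · push_cast
    field_simp
    ring
  · field_simp
    ring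

lemma loglog_diff (a b : ℝ) (ha : 0 < a) (hb : 0 < b) :
    a * (1 / a - 1 / b) ≤ Real.log b - Real.log a := by
  have h1 := Real.log_le_sub_one_of_pos (x := a / b) (by positivity)
  rw [Real.log_div ha.ne' hb.ne'] at h1
  have h2 : a * (1 / a - 1 / b) = 1 - a / b := by
    field_simp
  rw [h2]
  linarith

/-- upper bound of the Abel sum -/
lemma Phi_le (n : ℕ) (hn : 2 ≤ n) :
    W n - Aa n / Real.log n ≤ Real.log (Real.log n) - Real.log 4 / Real.log n +
      (Real.log 4 / Real.log 2 - Real.log (Real.log 2)) := by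
  induction n, hn using Nat.le_induction with
  | base =>
    have h1 : PL 2 = {2} := by
      ext p
      rw [mem_PL, mem_singleton]
      constructor
      · rintro ⟨h1, h2⟩
        have := h2.two_le
        omega
      · rintro rfl
        exact ⟨le_refl _, Nat.prime_two⟩
    have h2 : W 2 = 1 / 2 := by unfold W; rw [h1]; simp
    have h3 : Aa 2 = Real.log 2 / 2 := by unfold Aa; rw [h1]; simp
    have h4 : (0 : ℝ) < Real.log 2 := Real.log_pos (by norm_num)
    rw [h2, h3]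
    push_cast
    have h5 : Real.log 2 / 2 / Real.log 2 = 1 / 2 := by field_simp
    rw [h5]
    linarith
  | succ n hn ih =>
    have hst := step n hn
    have hn2 : (2 : ℝ) ≤ n := by exact_mod_cast hn
    have h0 : (0 : ℝ) < Real.log n := Real.log_pos (by linarith)
    have h1 : (0 : ℝ) < Real.log (n + 1) := Real.log_pos (by linarith)
    have h2 : Real.log n ≤ Real.log (n + 1) := Real.log_le_log (by linarith) (by linarith)
    have h3 : 0 ≤ 1 / Real.log n - 1 / Real.log (n + 1) := by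
      rw [sub_nonneg]
      exact one_div_le_one_div_of_le h0 h2
    have h4 := Aa_le n (by omega)
    have h5 := mul_le_mul_of_nonneg_right h4 h3
    have h6 := loglog_diff _ _ h0 h1
    have h7 : (Real.log n + Real.log 4) * (1 / Real.log n - 1 / Real.log (n + 1)) =
      Real.log n * (1 / Real.log n - 1 / Real.log (n + 1)) +
        (Real.log 4 / Real.log n - Real.log 4 / Real.log (n + 1)) := by ring
    push_cast
    linarith

/-- `W n ≤ log log n + C` -/
theorem exists_W_le : ∃ C : ℝ, ∀ n : ℕ, 2 ≤ n → W n ≤ Real.log (Real.log n) + C := by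
  refine ⟨1 + (Real.log 4 / Real.log 2 - Real.log (Real.log 2)), ?_⟩
  intro n hn
  have h1 := Phi_le n hn
  have hn2 : (2 : ℝ) ≤ n := by exact_mod_cast hn
  have h0 : (0 : ℝ) < Real.log n := Real.log_pos (by linarith)
  have h2 : Aa n / Real.log n ≤ (Real.log n + Real.log 4) / Real.log n :=
    div_le_div_of_nonneg_right (Aa_le n (by omega)) h0.le
  rw [add_div, div_self h0.ne'] at h2
  linarith

/-- number of prime divisors -/
def om (n : ℕ) : ℕ := n.primeFactors.card

lemma om_mul {m n : ℕ} (h : Nat.Coprime m n) : om (m * n) = om m + om n := by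
  unfold om
  rw [h.primeFactors_mul, card_union_of_disjoint h.disjoint_primeFactors]

lemma om_prime_pow {p k : ℕ} (hp : p.Prime) (hk : k ≠ 0) : om (p ^ k) = 1 := by
  unfold om
  rw [Nat.primeFactors_prime_pow hk hp, card_singleton]

lemma tsum_pp (z : ℝ) {p : ℕ} (hp : p.Prime) :
    HasSum (fun n : ℕ => z ^ om (p ^ n) / ((p ^ n : ℕ) : ℝ)) (1 + z / ((p : ℝ) - 1)) := by
  have hp1 : (1 : ℝ) < p := by exact_mod_cast hp.one_lt
  have h0 : (0 : ℝ) < p := by linarith
  have h1 : HasSum (fun n : ℕ => (1 / (p : ℝ)) ^ n) (1 - 1 / (p : ℝ))⁻¹ :=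
    hasSum_geometric_of_lt_one (by positivity) (by rw [div_lt_one h0]; exact hp1)
  have h2 : HasSum (fun n : ℕ => z / p * (1 / (p : ℝ)) ^ n) (z / p * (1 - 1 / (p : ℝ))⁻¹) :=
    h1.mul_left _
  have h3 : z / p * (1 - 1 / (p : ℝ))⁻¹ = z / ((p : ℝ) - 1) := by
    have : (p : ℝ) - 1 ≠ 0 := by linarith
    field_simp
  rw [h3] at h2
  rw [← hasSum_nat_add_iff' 1]
  simp only [range_one, sum_singleton, pow_zero]
  have h4 : om 1 = 0 := by simp [om]
  rw [h4]
  simp only [pow_zero, Nat.cast_one, div_one, add_sub_cancel_left]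
  have h5 : (fun n : ℕ => z ^ om (p ^ (n + 1)) / ((p ^ (n + 1) : ℕ) : ℝ)) =
      fun n : ℕ => z / p * (1 / (p : ℝ)) ^ n := by
    funext n
    rw [om_prime_pow hp (Nat.succ_ne_zero n)]
    push_cast
    rw [one_div, inv_pow]
    field_simp
    ring
  rw [h5]
  exact h2

/-- `∑_{n ≤ N} z ^ ω(n) / n ≤ ∏_{p ≤ N} (1 + z / (p - 1))` -/
theorem sum_le_prod (z : ℝ) (hz : 0 ≤ z) (N : ℕ) :
    ∑ n ∈ Icc 1 N, z ^ om n / (n : ℝ) ≤ ∏ p ∈ PL N, (1 + z / ((p : ℝ) - 1)) := by
  classical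
  have h1 : (fun n : ℕ => z ^ om n / (n : ℝ)) 1 = 1 := by simp [om]
  have hmul : ∀ {m n : ℕ}, Nat.Coprime m n → (fun n : ℕ => z ^ om n / (n : ℝ)) (m * n) =
      (fun n : ℕ => z ^ om n / (n : ℝ)) m * (fun n : ℕ => z ^ om n / (n : ℝ)) n := by
    intro m n h
    simp only
    rw [om_mul h, pow_add]
    push_cast
    rw [mul_div_mul_comm]
  have hnn : ∀ n : ℕ, 0 ≤ z ^ om n / (n : ℝ) := fun n => by positivity
  have hsum : ∀ {p : ℕ}, p.Prime →
      Summable (fun n : ℕ => ‖(fun n : ℕ => z ^ om n / (n : ℝ)) (p ^ n)‖) := by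
    intro p hp
    have := (tsum_pp z hp).summable
    refine this.congr fun n => ?_
    simp only
    rw [Real.norm_of_nonneg (hnn _)]
  have key := EulerProduct.summable_and_hasSum_factoredNumbers_prod_filter_prime_tsum
    (f := fun n : ℕ => z ^ om n / (n : ℝ)) h1 hmul (fun hp => hsum hp) (Icc 1 N)
  have h2 : ∏ p ∈ PL N, (1 + z / ((p : ℝ) - 1)) =
      ∏ p ∈ Icc 1 N with p.Prime, ∑' n : ℕ, (fun n : ℕ => z ^ om n / (n : ℝ)) (p ^ n) := by
    refine prod_congr rfl fun p hp => ?_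
    exact (tsum_pp z (mem_PL.1 hp).2).tsum_eq.symm
  rw [h2]
  have h3 : ∀ n ∈ Icc 1 N, n ∈ Nat.factoredNumbers (Icc 1 N) := by
    intro n hn
    rw [mem_Icc] at hn
    refine ⟨by omega, ?_⟩
    intro q hq
    rw [mem_Icc]
    exact ⟨(Nat.prime_of_mem_primeFactorsList hq).pos,
      (Nat.le_of_mem_primeFactorsList hq).trans hn.2⟩
  have h4 : ∑ n ∈ Icc 1 N, z ^ om n / (n : ℝ) =
      ∑ n ∈ (Icc 1 N).attach.image (fun n => (⟨n.1, h3 n.1 n.2⟩ : Nat.factoredNumbers (Icc 1 N))),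
        z ^ om (n : ℕ) / ((n : ℕ) : ℝ) := by
    rw [sum_image]
    · exact (sum_attach (Icc 1 N) (fun n => z ^ om n / (n : ℝ))).symm
    · intro a _ b _ hab
      simp only [Subtype.mk.injEq] at hab
      exact Subtype.ext hab
  rw [h4]
  exact sum_le_hasSum _ (fun _ _ => hnn _) key.2

lemma sum_inv_sq_le (n : ℕ) : ∑ k ∈ Icc 2 n, 1 / ((k : ℝ) * ((k : ℝ) - 1)) ≤ 1 := by
  have h : ∀ n : ℕ, 1 ≤ n → ∑ k ∈ Icc 2 n, 1 / ((k : ℝ) * ((k : ℝ) - 1)) = 1 - 1 / (n : ℝ) := by
    intro n hn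
    induction n, hn using Nat.le_induction with
    | base => simp
    | succ n hn ih =>
      rw [sum_Icc_succ_top (by omega), ih]
      have : (0 : ℝ) < n := by exact_mod_cast hn
      push_cast
      rw [add_sub_cancel_right]
      field_simp
      ring
  by_cases hn : 1 ≤ n
  · rw [h n hn]
    have : (0 : ℝ) ≤ 1 / (n : ℝ) := by positivity
    linarith
  · have : n = 0 := by omega
    rw [this]
    simp

lemma sum_inv_pred_le (N : ℕ) : ∑ p ∈ PL N, 1 / ((p : ℝ) - 1) ≤ W N + 1 := by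
  have h1 : ∑ p ∈ PL N, 1 / ((p : ℝ) - 1) =
      W N + ∑ p ∈ PL N, 1 / ((p : ℝ) * ((p : ℝ) - 1)) := by
    unfold W
    rw [← sum_add_distrib]
    refine sum_congr rfl fun p hp => ?_
    have hp1 : (1 : ℝ) < p := by exact_mod_cast (mem_PL.1 hp).2.one_lt
    have : (p : ℝ) - 1 ≠ 0 := by linarith
    field_simp
    ring
  rw [h1]
  have h2 : ∑ p ∈ PL N, 1 / ((p : ℝ) * ((p : ℝ) - 1)) ≤
      ∑ k ∈ Icc 2 N, 1 / ((k : ℝ) * ((k : ℝ) - 1)) := by
    apply sum_le_sum_of_subset_of_nonneg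
    · intro p hp
      rw [mem_PL] at hp
      rw [mem_Icc]
      exact ⟨hp.2.two_le, hp.1⟩
    · intro k hk _
      rw [mem_Icc] at hk
      have : (2 : ℝ) ≤ k := by exact_mod_cast hk.1
      have : (0 : ℝ) < (k : ℝ) - 1 := by linarith
      positivity
  have := sum_inv_sq_le N
  linarith

/-- `∑_{n ≤ N} z ^ ω(n) / n ≤ exp (z (W N + 1))` -/
theorem sum_le_exp (z : ℝ) (hz : 0 ≤ z) (N : ℕ) :
    ∑ n ∈ Icc 1 N, z ^ om n / (n : ℝ) ≤ Real.exp (z * (W N + 1)) := by
  refine (sum_le_prod z hz N).trans ?_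
  have h1 : ∏ p ∈ PL N, (1 + z / ((p : ℝ) - 1)) ≤ ∏ p ∈ PL N, Real.exp (z / ((p : ℝ) - 1)) := by
    apply prod_le_prod
    · intro p hp
      have hp1 : (1 : ℝ) < p := by exact_mod_cast (mem_PL.1 hp).2.one_lt
      have : (0 : ℝ) < (p : ℝ) - 1 := by linarith
      positivity
    · intro p _
      have := Real.add_one_le_exp (z / ((p : ℝ) - 1))
      linarith
  refine h1.trans ?_
  rw [← Real.exp_sum, Real.exp_le_exp]
  have h2 : ∑ p ∈ PL N, z / ((p : ℝ) - 1) = z * ∑ p ∈ PL N, 1 / ((p : ℝ) - 1) := by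
    rw [mul_sum]
    refine sum_congr rfl fun p _ => ?_
    ring
  rw [h2]
  exact mul_le_mul_of_nonneg_left (sum_inv_pred_le N) hz

/-- `log log N ≤ W N + 1` -/
theorem W_ge (N : ℕ) (hN : 2 ≤ N) : Real.log (Real.log N) ≤ W N + 1 := by
  have h1 := sum_le_exp 1 zero_le_one N
  rw [one_mul] at h1
  have h2 : ∑ n ∈ Icc 1 N, (1 : ℝ) ^ om n / (n : ℝ) = ∑ n ∈ Icc 1 N, 1 / (n : ℝ) := by
    refine sum_congr rfl fun n _ => ?_
    rw [one_pow]
  rw [h2] at h1
  have h3 : Real.log (N + 1) ≤ ∑ n ∈ Icc 1 N, 1 / (n : ℝ) := by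
    have h := log_add_one_le_harmonic N
    rw [harmonic_eq_sum_Icc] at h
    push_cast at h
    simpa [one_div] using h
  have hN2 : (2 : ℝ) ≤ N := by exact_mod_cast hN
  have h4 : Real.log N ≤ Real.log (N + 1) := Real.log_le_log (by linarith) (by linarith)
  have h5 : (0 : ℝ) < Real.log N := Real.log_pos (by linarith)
  have h6 : Real.log N ≤ Real.exp (W N + 1) := by linarith
  have h7 := Real.log_le_log h5 h6
  rwa [Real.log_exp] at h7

end Pool.Agent.Helper16.UB
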