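import Mathlib

/-!
# Definitions for `MP_277c78_nt`
-/

namespace Pool.Agent.Helper16.UB

open Finset

/-- `R_A(m)`: the number of pairs `(p, a)` with `p` prime, `a ∈ A` and `m = p a`. -/
noncomputable def R (A : Finset ℕ) (m : ℕ) : ℕ :=
  Set.ncard {x : ℕ × ℕ | x.1.Prime ∧ x.2 ∈ A ∧ m = x.1 * x.2}

/-- `A` is `r`-admissible at level `N`: `A ⊆ {1, …, N}` and `R_A(m) ≤ r` for all `m ≥ 1`. -/
def Admissible (r N : ℕ) (A : Finset ℕ) : Prop :=
  A ⊆ Icc 1 N ∧ ∀ m, 0 < m → R A m ≤ r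

/-- `M_r(N)`: the largest reciprocal sum of an `r`-admissible set at level `N`. -/
noncomputable def M (r N : ℕ) : ℝ :=
  sSup {s : ℝ | ∃ A : Finset ℕ, Admissible r N A ∧ s = ∑ n ∈ A, 1 / (n : ℝ)}

end Pool.Agent.Helper16.UB
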