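import Pool.Agent.Helper16.UB.Mert
import Pool.Agent.Helper16.UB.Defs

/-!
# The double counting argument
-/

namespace Pool.Agent.Helper16.UB

open Finset

/-- the prime divisors of the quotients -/
noncomputable def D (N : ℕ) (A : Finset ℕ) (b : ℕ) : ℝ :=
  ∑ p ∈ PL N, if p * b ∈ A then 1 / (p : ℝ) else 0

lemma reindex {N : ℕ} {A : Finset ℕ} (hA : A ⊆ Icc 1 N) {p : ℕ} (hp : 0 < p) (F : ℕ → ℝ) :
    ∑ b ∈ Icc 1 N, (if p * b ∈ A then F b else 0) =
      ∑ a ∈ A, if p ∣ a then F (a / p) else 0 := by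
  classical
  rw [← sum_filter, ← sum_filter]
  refine sum_bij (fun b _ => p * b) ?_ ?_ ?_ ?_
  · intro b hb
    rw [mem_filter] at hb ⊢
    exact ⟨hb.2, dvd_mul_right _ _⟩
  · intro b _ b' _ h
    exact Nat.eq_of_mul_eq_mul_left hp h
  · intro a ha
    rw [mem_filter] at ha
    obtain ⟨b, rfl⟩ := ha.2
    have h1 := hA ha.1
    rw [mem_Icc] at h1
    refine ⟨b, ?_, rfl⟩
    rw [mem_filter, mem_Icc]
    refine ⟨⟨?_, ?_⟩, ha.1⟩
    · by_contra h
      have : b = 0 := by omega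
      rw [this] at h1
      omega
    · exact (Nat.le_mul_of_pos_left b hp).trans h1.2
  · intro b _
    rw [Nat.mul_div_cancel_left b hp]

/-- `∑_b D(b) F(b) = ∑_{a ∈ A} ∑_{p ∣ a} F(a/p)/p` -/
lemma sum_D {N : ℕ} {A : Finset ℕ} (hA : A ⊆ Icc 1 N) (F : ℕ → ℝ) :
    ∑ b ∈ Icc 1 N, D N A b * F b =
      ∑ a ∈ A, ∑ p ∈ (PL N).filter (fun p => p ∣ a), 1 / (p : ℝ) * F (a / p) := by
  unfold D
  have h1 : ∀ b, (∑ p ∈ PL N, if p * b ∈ A then 1 / (p : ℝ) else 0) * F b =
      ∑ p ∈ PL N, if p * b ∈ A then 1 / (p : ℝ) * F b else 0 := by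
    intro b
    rw [sum_mul]
    refine sum_congr rfl fun p _ => ?_
    rw [ite_mul, zero_mul]
  rw [sum_congr rfl fun b _ => h1 b, sum_comm]
  have h2 : ∀ p ∈ PL N, ∑ b ∈ Icc 1 N, (if p * b ∈ A then 1 / (p : ℝ) * F b else 0) =
      ∑ a ∈ A, if p ∣ a then 1 / (p : ℝ) * F (a / p) else 0 := by
    intro p hp
    exact reindex hA (mem_PL.1 hp).2.pos (fun b => 1 / (p : ℝ) * F b)
  rw [sum_congr rfl h2, sum_comm]
  refine sum_congr rfl fun a _ => ?_
  rw [sum_filter]

lemma primeFactors_eq {N a : ℕ} (ha : a ∈ Icc 1 N) :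
    (PL N).filter (fun p => p ∣ a) = a.primeFactors := by
  rw [mem_Icc] at ha
  ext p
  rw [mem_filter, mem_PL, Nat.mem_primeFactors]
  constructor
  · rintro ⟨⟨_, h1⟩, h2⟩
    exact ⟨h1, h2, by omega⟩
  · rintro ⟨h1, h2, _⟩
    exact ⟨⟨(Nat.le_of_dvd (by omega) h2).trans ha.2, h1⟩, h2⟩

/-- (1) -/
lemma sum_D_div {N : ℕ} {A : Finset ℕ} (hA : A ⊆ Icc 1 N) :
    ∑ b ∈ Icc 1 N, D N A b / b = ∑ a ∈ A, (om a : ℝ) / a := by
  have h1 := sum_D hA (fun b => 1 / (b : ℝ))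
  have h2 : ∑ b ∈ Icc 1 N, D N A b / b = ∑ b ∈ Icc 1 N, D N A b * (1 / (b : ℝ)) :=
    sum_congr rfl fun b _ => by rw [mul_one_div]
  rw [h2, h1]
  refine sum_congr rfl fun a ha => ?_
  rw [primeFactors_eq (hA ha)]
  have h3 : ∀ p ∈ a.primeFactors, 1 / (p : ℝ) * (1 / ((a / p : ℕ) : ℝ)) = 1 / a := by
    intro p hp
    rw [Nat.mem_primeFactors] at hp
    obtain ⟨hp1, ⟨c, rfl⟩, hp3⟩ := hp
    rw [Nat.mul_div_cancel_left c hp1.pos]
    push_cast
    rw [one_div_mul_one_div]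
  rw [sum_congr rfl h3, sum_const, om, nsmul_eq_mul, mul_one_div]

/-- the representation bound: for `a ∈ A` and a prime `x` at most `r - 1` primes `y ≠ x` divide `a`
with `x a / y ∈ A` -/
lemma card_le {r N : ℕ} {A : Finset ℕ} (hA : Admissible r N A) {a x : ℕ} (ha : a ∈ A)
    (hx : x.Prime) :
    ((PL N).filter (fun y => y ∣ a ∧ x * (a / y) ∈ A)).card + 1 ≤
      r + if x ∣ a then 1 else 0 := by
  classical
  set Y := (PL N).filter (fun y => y ∣ a ∧ x * (a / y) ∈ A) with hY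
  have ha1 := hA.1 ha
  rw [mem_Icc] at ha1
  have hm : 0 < x * a := Nat.mul_pos hx.pos (by omega)
  have hR := hA.2 (x * a) hm
  have hinj : (Y.erase x).card + 1 ≤ R A (x * a) := by
    unfold R
    have hfin : Set.Finite {z : ℕ × ℕ | z.1.Prime ∧ z.2 ∈ A ∧ x * a = z.1 * z.2} := by
      have : {z : ℕ × ℕ | z.1.Prime ∧ z.2 ∈ A ∧ x * a = z.1 * z.2} ⊆
          ((Icc 0 (x * a)) ×ˢ A : Finset (ℕ × ℕ)) := by
        rintro ⟨p, b⟩ ⟨h1, h2, h3⟩
        simp only at h1 h2 h3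
        simp only [coe_product, Set.mem_prod, mem_coe, mem_Icc]
        refine ⟨⟨Nat.zero_le _, ?_⟩, h2⟩
        exact Nat.le_of_dvd hm ⟨b, h3⟩
      exact (Finset.finite_toSet _).subset this
    have himg : (insert (x, a) ((Y.erase x).image (fun y => (y, x * (a / y)))) : Finset (ℕ × ℕ)).card
        = (Y.erase x).card + 1 := by
      rw [card_insert_of_notMem, card_image_of_injOn]
      · intro y _ y' _ h
        simp only [Prod.mk.injEq] at h
        exact h.1
      · rw [mem_image]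
        rintro ⟨y, hy, h⟩
        simp only [Prod.mk.injEq] at h
        rw [mem_erase] at hy
        exact hy.1 h.1
    rw [← himg, ← Set.ncard_coe_finset]
    apply Set.ncard_le_ncard _ hfin
    intro z hz
    rw [mem_coe, mem_insert, mem_image] at hz
    rcases hz with rfl | ⟨y, hy, rfl⟩
    · exact ⟨hx, ha, rfl⟩
    · rw [mem_erase, hY, mem_filter, mem_PL] at hy
      refine ⟨hy.2.1.2, hy.2.2.2, ?_⟩
      obtain ⟨c, hc⟩ := hy.2.2.1
      have hy0 := hy.2.1.2.pos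
      simp only
      rw [hc, Nat.mul_div_cancel_left c hy0]
      ring
  by_cases hxa : x ∣ a
  · rw [if_pos hxa]
    have h1 : Y.card ≤ (Y.erase x).card + 1 := by
      have := pred_card_le_card_erase (s := Y) (a := x)
      omega
    omega
  · rw [if_neg hxa]
    have h1 : Y.erase x = Y := by
      apply erase_eq_of_notMem
      rw [hY, mem_filter]
      rintro ⟨_, h, _⟩
      exact hxa h
    rw [h1] at hinj
    omega

/-- `∑_{x ∣ a} 1/x` -/
noncomputable def rs (a : ℕ) : ℝ := ∑ p ∈ a.primeFactors, 1 / (p : ℝ)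

/-- (3) -/
lemma sum_D_quot {r N : ℕ} {A : Finset ℕ} (hA : Admissible r N A) {a : ℕ} (ha : a ∈ A) :
    ∑ y ∈ (PL N).filter (fun y => y ∣ a), D N A (a / y) ≤ ((r : ℝ) - 1) * W N + rs a := by
  unfold D
  rw [sum_comm]
  have h1 : ∀ x ∈ PL N, (∑ y ∈ (PL N).filter (fun y => y ∣ a),
      if x * (a / y) ∈ A then 1 / (x : ℝ) else 0) ≤
      ((r : ℝ) - 1) * (1 / (x : ℝ)) + if x ∣ a then 1 / (x : ℝ) else 0 := by
    intro x hx
    have hx' := (mem_PL.1 hx).2
    have hx0 : (0 : ℝ) < x := by exact_mod_cast hx'.pos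
    rw [← sum_filter, filter_filter, sum_const, nsmul_eq_mul]
    have h2 := card_le hA ha hx'
    have h3 : ((((PL N).filter (fun y => y ∣ a ∧ x * (a / y) ∈ A)).card : ℕ) : ℝ) ≤
        (r : ℝ) - 1 + if x ∣ a then 1 else 0 := by
      have h4 : ((((PL N).filter (fun y => y ∣ a ∧ x * (a / y) ∈ A)).card + 1 : ℕ) : ℝ) ≤
        ((r + if x ∣ a then 1 else 0 : ℕ) : ℝ) := by exact_mod_cast h2
      push_cast at h4
      linarith
    have h5 := mul_le_mul_of_nonneg_right h3 (show (0 : ℝ) ≤ 1 / (x : ℝ) by positivity)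
    refine h5.trans (le_of_eq ?_)
    split_ifs <;> ring
  refine (sum_le_sum h1).trans (le_of_eq ?_)
  rw [sum_add_distrib, ← mul_sum, ← sum_filter, primeFactors_eq (hA.1 ha)]
  rfl

lemma D_nonneg (N : ℕ) (A : Finset ℕ) (b : ℕ) : 0 ≤ D N A b := by
  unfold D
  apply sum_nonneg
  intro p _
  split_ifs
  · positivity
  · exact le_refl _

/-- (2) and (3) -/
lemma sum_D_sq {r N : ℕ} {A : Finset ℕ} (hA : Admissible r N A) (δ : ℝ)
    (hδ : ∀ a ∈ Icc 1 N, rs a ≤ δ) :
    ∑ b ∈ Icc 1 N, D N A b ^ 2 / b ≤ (∑ a ∈ A, 1 / (a : ℝ)) * (((r : ℝ) - 1) * W N + δ) := by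
  have h1 := sum_D hA.1 (fun b => D N A b / (b : ℝ))
  have h2 : ∑ b ∈ Icc 1 N, D N A b ^ 2 / b = ∑ b ∈ Icc 1 N, D N A b * (D N A b / (b : ℝ)) :=
    sum_congr rfl fun b _ => by ring
  rw [h2, h1, sum_mul]
  refine sum_le_sum fun a ha => ?_
  have haI := hA.1 ha
  have ha1 := mem_Icc.1 haI
  have ha0 : (0 : ℝ) < a := by exact_mod_cast (by omega : 0 < a)
  have h3 : ∀ p ∈ (PL N).filter (fun p => p ∣ a),
      1 / (p : ℝ) * (D N A (a / p) / ((a / p : ℕ) : ℝ)) = 1 / a * D N A (a / p) := by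
    intro p hp
    rw [mem_filter, mem_PL] at hp
    obtain ⟨⟨hp0, hp1⟩, ⟨c, rfl⟩⟩ := hp
    rw [Nat.mul_div_cancel_left c hp1.pos]
    have hp2 : (0 : ℝ) < p := by exact_mod_cast hp1.pos
    have hc : (0 : ℝ) < c := by
      have : 0 < c := by
        rcases Nat.eq_zero_or_pos c with h | h
        · rw [h] at ha1; omega
        · exact h
      exact_mod_cast this
    push_cast
    field_simp
  rw [sum_congr rfl h3, ← mul_sum]
  apply mul_le_mul_of_nonneg_left _ (by positivity)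
  have h4 := sum_D_quot hA ha
  have h5 := hδ a haI
  linarith

/-- (4) Cauchy-Schwarz -/
theorem main_ineq {r N : ℕ} {A : Finset ℕ} (hA : Admissible r N A) (δ : ℝ)
    (hδ : ∀ a ∈ Icc 1 N, rs a ≤ δ) :
    (∑ a ∈ A, (om a : ℝ) / a) ^ 2 ≤
      (∑ b ∈ Icc 1 N, 1 / (b : ℝ)) *
        ((∑ a ∈ A, 1 / (a : ℝ)) * (((r : ℝ) - 1) * W N + δ)) := by
  rw [← sum_D_div hA.1]
  have h1 : (∑ b ∈ Icc 1 N, D N A b / b) ^ 2 ≤
      (∑ b ∈ Icc 1 N, 1 / (b : ℝ)) * ∑ b ∈ Icc 1 N, D N A b ^ 2 / b := by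
    apply sum_sq_le_sum_mul_sum_of_sq_le_mul
    · intro b _
      positivity
    · intro b _
      positivity
    · intro b _
      apply le_of_eq
      ring
  refine h1.trans ?_
  apply mul_le_mul_of_nonneg_left (sum_D_sq hA δ hδ)
  apply sum_nonneg
  intro b _
  positivity

/-- (5) numbers with few prime divisors -/
theorem few_le (z : ℝ) (hz0 : 0 < z) (hz1 : z ≤ 1) (N : ℕ) :
    ∑ n ∈ (Icc 1 N).filter (fun n => (om n : ℝ) ≤ z * W N), 1 / (n : ℝ) ≤
      Real.exp z * Real.exp ((z - z * Real.log z) * W N) := by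
  have h1 := sum_le_exp z hz0.le N
  have h2 : ∀ n ∈ (Icc 1 N).filter (fun n => (om n : ℝ) ≤ z * W N),
      1 / (n : ℝ) ≤ Real.exp (-(z * Real.log z) * W N) * (z ^ om n / (n : ℝ)) := by
    intro n hn
    rw [mem_filter, mem_Icc] at hn
    have hn0 : (0 : ℝ) < n := by exact_mod_cast hn.1.1
    have h3 : (1 : ℝ) ≤ Real.exp (-(z * Real.log z) * W N) * z ^ om n := by
      have h4 : z ^ om n = Real.exp (om n * Real.log z) := by
        rw [← Real.log_pow, Real.exp_log (by positivity)]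
      rw [h4, ← Real.exp_add]
      apply Real.one_le_exp
      have h5 : Real.log z ≤ 0 := Real.log_nonpos hz0.le hz1
      nlinarith [hn.2]
    rw [← mul_div_assoc]
    exact div_le_div_of_nonneg_right h3 hn0.le
  refine (sum_le_sum h2).trans ?_
  rw [← mul_sum]
  have h3 : ∑ n ∈ (Icc 1 N).filter (fun n => (om n : ℝ) ≤ z * W N), z ^ om n / (n : ℝ) ≤
      ∑ n ∈ Icc 1 N, z ^ om n / (n : ℝ) := by
    apply sum_le_sum_of_subset_of_nonneg (filter_subset _ _)
    intro n _ _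
    positivity
  have h4 := h3.trans h1
  have h5 := mul_le_mul_of_nonneg_left h4 (Real.exp_pos (-(z * Real.log z) * W N)).le
  refine h5.trans (le_of_eq ?_)
  rw [← Real.exp_add, ← Real.exp_add]
  congr 1
  ring

/-- lower bound for `∑ ω(a)/a` -/
theorem sum_om_ge {N : ℕ} {A : Finset ℕ} (hA : A ⊆ Icc 1 N) (z : ℝ) (hz0 : 0 < z) (hz1 : z ≤ 1) :
    z * W N * ((∑ a ∈ A, 1 / (a : ℝ)) - Real.exp z * Real.exp ((z - z * Real.log z) * W N)) ≤
      ∑ a ∈ A, (om a : ℝ) / a := by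
  classical
  have hW : 0 ≤ W N := by
    unfold W
    exact sum_nonneg fun p _ => by positivity
  have h1 := few_le z hz0 hz1 N
  have h2 : ∑ a ∈ A, 1 / (a : ℝ) =
      ∑ a ∈ A.filter (fun n => (om n : ℝ) ≤ z * W N), 1 / (a : ℝ) +
      ∑ a ∈ A.filter (fun n => ¬ (om n : ℝ) ≤ z * W N), 1 / (a : ℝ) :=
    (sum_filter_add_sum_filter_not _ _ _).symm
  have h3 : ∑ a ∈ A.filter (fun n => (om n : ℝ) ≤ z * W N), 1 / (a : ℝ) ≤
      ∑ n ∈ (Icc 1 N).filter (fun n => (om n : ℝ) ≤ z * W N), 1 / (n : ℝ) := by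
    apply sum_le_sum_of_subset_of_nonneg (filter_subset_filter _ hA)
    intro n _ _
    positivity
  have h4 : z * W N * ∑ a ∈ A.filter (fun n => ¬ (om n : ℝ) ≤ z * W N), 1 / (a : ℝ) ≤
      ∑ a ∈ A, (om a : ℝ) / a := by
    rw [mul_sum]
    calc ∑ a ∈ A.filter (fun n => ¬ (om n : ℝ) ≤ z * W N), z * W N * (1 / (a : ℝ))
        ≤ ∑ a ∈ A.filter (fun n => ¬ (om n : ℝ) ≤ z * W N), (om a : ℝ) / a := by
          refine sum_le_sum fun a ha => ?_
          rw [mem_filter, not_le] at ha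
          rw [mul_one_div]
          exact div_le_div_of_nonneg_right ha.2.le (by positivity)
      _ ≤ ∑ a ∈ A, (om a : ℝ) / a := by
          apply sum_le_sum_of_subset_of_nonneg (filter_subset _ _)
          intro n _ _
          positivity
  refine le_trans ?_ h4
  apply mul_le_mul_of_nonneg_left _ (by positivity)
  linarith

lemma om_le_log {a N : ℕ} (ha : 0 < a) (haN : a ≤ N) : om a ≤ Nat.log 2 N := by
  have h1 : 2 ^ om a ≤ a := by
    calc 2 ^ om a = ∏ p ∈ a.primeFactors, 2 := by rw [prod_const, om]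
      _ ≤ ∏ p ∈ a.primeFactors, p := by
          apply prod_le_prod' (fun p hp => (Nat.prime_of_mem_primeFactors hp).two_le)
      _ ≤ a := Nat.le_of_dvd ha (Nat.prod_primeFactors_dvd a)
  have h2 : 2 ^ om a ≤ N := h1.trans haN
  exact (Nat.le_log_iff_pow_le (by norm_num) (by omega)).2 h2

/-- the sum of the reciprocals of the prime divisors -/
theorem rs_le {a N : ℕ} (ha : a ∈ Icc 1 N) : rs a ≤ W (Nat.log 2 N + 1) + 1 := by
  classical
  rw [mem_Icc] at ha
  set T := Nat.log 2 N + 1 with hT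
  have hom := om_le_log (by omega : 0 < a) ha.2
  unfold rs
  rw [← sum_filter_add_sum_filter_not a.primeFactors (fun p => p ≤ T)]
  apply add_le_add
  · unfold W
    apply sum_le_sum_of_subset_of_nonneg
    · intro p hp
      rw [mem_filter] at hp
      rw [mem_PL]
      exact ⟨hp.2, Nat.prime_of_mem_primeFactors hp.1⟩
    · intro p _ _
      positivity
  · have hT0 : (0 : ℝ) < T := by exact_mod_cast Nat.succ_pos _
    calc ∑ p ∈ a.primeFactors.filter (fun p => ¬ p ≤ T), 1 / (p : ℝ)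
        ≤ ∑ p ∈ a.primeFactors.filter (fun p => ¬ p ≤ T), 1 / (T : ℝ) := by
          refine sum_le_sum fun p hp => ?_
          rw [mem_filter, not_le] at hp
          exact one_div_le_one_div_of_le hT0 (by exact_mod_cast hp.2.le)
      _ = (a.primeFactors.filter (fun p => ¬ p ≤ T)).card * (1 / (T : ℝ)) := by
          rw [sum_const, nsmul_eq_mul]
      _ ≤ T * (1 / (T : ℝ)) := by
          apply mul_le_mul_of_nonneg_right _ (by positivity)
          have : (a.primeFactors.filter (fun p => ¬ p ≤ T)).card ≤ T := by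
            have h1 := card_le_card (filter_subset (fun p => ¬ p ≤ T) a.primeFactors)
            have h2 : a.primeFactors.card = om a := rfl
            omega
          exact_mod_cast this
      _ = 1 := by rw [mul_one_div, div_self hT0.ne']

end Pool.Agent.Helper16.UB
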