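import Pool.Agent.Helper16.UB.Count

/-!
# The asymptotic upper bound
-/

namespace Pool.Agent.Helper16.UB

open Finset Filter Topology

/-- `log log N` -/
noncomputable def ll (N : ℕ) : ℝ := Real.log (Real.log N)

lemma tendsto_log_nat : Tendsto (fun N : ℕ => Real.log (N : ℝ)) atTop atTop :=
  Real.tendsto_log_atTop.comp tendsto_natCast_atTop_atTop

lemma tendsto_ll : Tendsto ll atTop atTop := Real.tendsto_log_atTop.comp tendsto_log_nat

lemma W_nonneg (N : ℕ) : 0 ≤ W N := by
  unfold W
  exact sum_nonneg fun p _ => by positivity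

lemma t1 : Tendsto (fun N : ℕ => W N / ll N) atTop (𝓝 1) := by
  obtain ⟨C, hC⟩ := exists_W_le
  have h1 : Tendsto (fun N : ℕ => 1 - 1 / ll N) atTop (𝓝 1) := by
    have := (tendsto_const_nhds (x := (1 : ℝ))).sub (tendsto_const_nhds.div_atTop tendsto_ll
      (a := (1 : ℝ)))
    simpa using this
  have h2 : Tendsto (fun N : ℕ => 1 + C / ll N) atTop (𝓝 1) := by
    have := (tendsto_const_nhds (x := (1 : ℝ))).add (tendsto_const_nhds.div_atTop tendsto_ll
      (a := C))
    simpa using this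
  refine tendsto_of_tendsto_of_tendsto_of_le_of_le' h1 h2 ?_ ?_
  · filter_upwards [tendsto_ll.eventually_gt_atTop 0, eventually_ge_atTop 2] with N hN hN2
    have := W_ge N hN2
    rw [le_div_iff₀ hN, sub_mul, one_mul, div_mul_cancel₀ _ hN.ne']
    unfold ll
    linarith
  · filter_upwards [tendsto_ll.eventually_gt_atTop 0, eventually_ge_atTop 2] with N hN hN2
    have := hC N hN2
    rw [div_le_iff₀ hN, add_mul, one_mul, div_mul_cancel₀ _ hN.ne']
    exact this

lemma t2 : Tendsto (fun N : ℕ => (W (Nat.log 2 N + 1) + 1) / ll N) atTop (𝓝 0) := by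
  obtain ⟨C, hC⟩ := exists_W_le
  have h0 : Tendsto (fun x : ℝ => Real.log x / x) atTop (𝓝 0) := by
    have := Real.isLittleO_log_id_atTop.tendsto_div_nhds_zero
    simpa using this
  have h1 : Tendsto (fun N : ℕ => Real.log (ll N) / ll N + (Real.log 2 + C + 1) / ll N) atTop
      (𝓝 0) := by
    have := (h0.comp tendsto_ll).add (tendsto_const_nhds.div_atTop tendsto_ll
      (a := Real.log 2 + C + 1))
    simpa using this
  refine tendsto_of_tendsto_of_tendsto_of_le_of_le' tendsto_const_nhds h1 ?_ ?_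
  · filter_upwards [tendsto_ll.eventually_gt_atTop 0] with N hN
    have := W_nonneg (Nat.log 2 N + 1)
    positivity
  · filter_upwards [tendsto_ll.eventually_gt_atTop 0, tendsto_ll.eventually_ge_atTop (Real.log 3),
      tendsto_log_nat.eventually_ge_atTop 1, eventually_ge_atTop 2] with N hN hN3 hN1 hN2
    rw [← add_div]
    apply div_le_div_of_nonneg_right _ hN.le
    have hlog2 : 1 ≤ Nat.log 2 N := by
      exact (Nat.le_log_iff_pow_le (by norm_num) (by omega)).2 (by simpa using hN2)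
    have hW := hC (Nat.log 2 N + 1) (by omega)
    have hT : ((Nat.log 2 N + 1 : ℕ) : ℝ) ≤ 3 * Real.log N := by
      have h2 : (Nat.log 2 N : ℝ) * Real.log 2 ≤ Real.log N := by
        have h3 : (2 : ℝ) ^ Nat.log 2 N ≤ N := by exact_mod_cast Nat.pow_log_le_self 2 (by omega)
        have h4 := Real.log_le_log (by positivity) h3
        rwa [Real.log_pow] at h4
      have h5 : (0.69 : ℝ) < Real.log 2 := by
        have := Real.log_two_gt_d9
        linarith
      have h6 : (0 : ℝ) ≤ Nat.log 2 N := Nat.cast_nonneg _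
      push_cast
      nlinarith
    have hT2 : (2 : ℝ) ≤ ((Nat.log 2 N + 1 : ℕ) : ℝ) := by exact_mod_cast (by omega)
    have h7 : Real.log ((Nat.log 2 N + 1 : ℕ) : ℝ) ≤ 2 * ll N := by
      have h8 := Real.log_le_log (by linarith) hT
      rw [Real.log_mul (by norm_num) (by linarith)] at h8
      unfold ll at hN3 ⊢
      linarith
    have h9 : (0 : ℝ) < Real.log ((Nat.log 2 N + 1 : ℕ) : ℝ) := Real.log_pos (by linarith)
    have h10 := Real.log_le_log h9 h7
    rw [Real.log_mul (by norm_num) hN.ne'] at h10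
    linarith

lemma one_sub_log_lt {z : ℝ} (hz0 : 0 < z) (hz1 : z < 1) : z - z * Real.log z < 1 := by
  have h1 := Real.log_lt_sub_one_of_pos (x := 1 / z) (by positivity)
    (by rw [ne_eq, div_eq_one_iff_eq hz0.ne']; exact hz1.ne')
  rw [one_div, Real.log_inv] at h1
  have h2 : z * (-Real.log z) < z * (z⁻¹ - 1) := mul_lt_mul_of_pos_left h1 hz0
  have h3 : z * (z⁻¹ - 1) = 1 - z := by field_simp
  rw [h3] at h2
  linarith

lemma t3 (z : ℝ) (hz0 : 0 < z) (hz1 : z < 1) :
    Tendsto (fun N : ℕ => Real.exp z * Real.exp ((z - z * Real.log z) * W N) * ll N / Real.log N)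
      atTop (𝓝 0) := by
  obtain ⟨C, hC⟩ := exists_W_le
  set c := z - z * Real.log z with hc
  have hc1 : c < 1 := one_sub_log_lt hz0 hz1
  have hc0 : 0 ≤ c := by
    have : Real.log z ≤ 0 := Real.log_nonpos hz0.le hz1.le
    rw [hc]
    nlinarith
  have h0 : Tendsto (fun x : ℝ => x * Real.exp (-((1 - c) * x))) atTop (𝓝 0) := by
    have h1 : Tendsto (fun x : ℝ => x ^ 1 * Real.exp (-x)) atTop (𝓝 0) :=
      Real.tendsto_pow_mul_exp_neg_atTop_nhds_zero 1
    have h2 : Tendsto (fun x : ℝ => (1 - c) * x) atTop atTop :=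
      tendsto_id.const_mul_atTop (by linarith)
    have h3 := (h1.comp h2).const_mul (1 - c)⁻¹
    rw [mul_zero] at h3
    refine h3.congr fun x => ?_
    simp only [Function.comp, pow_one]
    have : 1 - c ≠ 0 := by linarith
    field_simp
  have h1 : Tendsto (fun N : ℕ => Real.exp z * Real.exp (c * C) *
      (ll N * Real.exp (-((1 - c) * ll N)))) atTop (𝓝 0) := by
    have := (h0.comp tendsto_ll).const_mul (Real.exp z * Real.exp (c * C))
    simpa using this
  refine tendsto_of_tendsto_of_tendsto_of_le_of_le' tendsto_const_nhds h1 ?_ ?_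
  · filter_upwards [tendsto_ll.eventually_gt_atTop 0, tendsto_log_nat.eventually_ge_atTop 1]
      with N hN hN1
    positivity
  · filter_upwards [tendsto_ll.eventually_gt_atTop 0, tendsto_log_nat.eventually_ge_atTop 1,
      eventually_ge_atTop 2] with N hN hN1 hN2
    have hL : (0 : ℝ) < Real.log N := by linarith
    have hW := hC N hN2
    have h2 : Real.exp (c * W N) ≤ Real.exp (c * C) * Real.exp (c * ll N) := by
      rw [← Real.exp_add, Real.exp_le_exp]
      have := mul_le_mul_of_nonneg_left hW hc0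
      unfold ll
      linarith
    have h3 : Real.exp (-((1 - c) * ll N)) = Real.exp (c * ll N) / Real.log N := by
      have h4 : -((1 - c) * ll N) = c * ll N - ll N := by ring
      rw [h4, Real.exp_sub]
      congr 1
      unfold ll
      exact Real.exp_log hL
    rw [h3]
    have h4 : Real.exp z * Real.exp (c * C) * (ll N * (Real.exp (c * ll N) / Real.log N)) =
      Real.exp z * (Real.exp (c * C) * Real.exp (c * ll N)) * ll N / Real.log N := by ring
    rw [h4]
    apply div_le_div_of_nonneg_right _ hL.le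
    apply mul_le_mul_of_nonneg_right _ hN.le
    exact mul_le_mul_of_nonneg_left h2 (Real.exp_pos _).le

lemma t4 : Tendsto (fun N : ℕ => (1 + Real.log N) / Real.log N) atTop (𝓝 1) := by
  have h1 : Tendsto (fun N : ℕ => 1 / Real.log N + 1) atTop (𝓝 (0 + 1)) :=
    (tendsto_const_nhds.div_atTop tendsto_log_nat (a := (1 : ℝ))).add tendsto_const_nhds
  rw [zero_add] at h1
  refine h1.congr' ?_
  filter_upwards [tendsto_log_nat.eventually_ge_atTop 1] with N hN
  have : Real.log N ≠ 0 := by linarith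
  field_simp

lemma harm_le (N : ℕ) : ∑ b ∈ Icc 1 N, 1 / (b : ℝ) ≤ 1 + Real.log N := by
  have h := harmonic_le_one_add_log N
  rw [harmonic_eq_sum_Icc] at h
  push_cast at h
  simpa [one_div] using h

/-- the bound before taking limits, in normalised variables -/
lemma real_step (s e w l d z r : ℝ) (he : 0 ≤ e) (hw : 0 < w) (hz : 0 < z)
    (hl : 0 ≤ l) (hd : 0 ≤ (r - 1) * w + d)
    (h : e ≤ s → (z * w * (s - e)) ^ 2 ≤ l * (s * ((r - 1) * w + d))) :
    s ≤ 2 * e + l * ((r - 1) * w + d) / (z ^ 2 * w ^ 2) := by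
  have hzw : 0 < z ^ 2 * w ^ 2 := by positivity
  have hB : 0 ≤ l * ((r - 1) * w + d) / (z ^ 2 * w ^ 2) := by positivity
  by_cases h1 : s ≤ 2 * e
  · linarith
  · push Not at h1
    have h2 := h (by linarith)
    have hs0 : 0 < s := by linarith
    have h3 : s * (s - 2 * e) ≤ (s - e) ^ 2 := by nlinarith [sq_nonneg e]
    have h4 : z ^ 2 * w ^ 2 * (s * (s - 2 * e)) ≤ l * (s * ((r - 1) * w + d)) := by
      have := mul_le_mul_of_nonneg_left h3 hzw.le
      nlinarith
    have h5 : z ^ 2 * w ^ 2 * (s - 2 * e) ≤ l * ((r - 1) * w + d) := by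
      have h6 : s * (z ^ 2 * w ^ 2 * (s - 2 * e)) ≤ s * (l * ((r - 1) * w + d)) := by linarith
      exact le_of_mul_le_mul_left h6 hs0
    have h7 : s - 2 * e ≤ l * ((r - 1) * w + d) / (z ^ 2 * w ^ 2) := by
      rw [le_div_iff₀ hzw]
      linarith
    linarith

/-- The bound for all large `N`. -/
theorem upper (r : ℕ) (hr : 1 ≤ r) (ε : ℝ) (hε : 0 < ε) :
    ∀ᶠ N : ℕ in atTop, ∀ A : Finset ℕ, Admissible r N A →
      ∑ a ∈ A, 1 / (a : ℝ) ≤ ((r : ℝ) - 1 + ε) * (Real.log N / Real.log (Real.log N)) := by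
  have hr1 : (1 : ℝ) ≤ r := by exact_mod_cast hr
  -- choice of `z`
  obtain ⟨z, hz0, hz1, hz⟩ : ∃ z : ℝ, 0 < z ∧ z < 1 ∧ ((r : ℝ) - 1) / z ^ 2 < (r : ℝ) - 1 + ε := by
    set q := ((r : ℝ) - 1) / ((r : ℝ) - 1 + ε / 2) with hq
    have hden : 0 < (r : ℝ) - 1 + ε / 2 := by linarith
    have hq0 : 0 ≤ q := by
      rw [hq]
      apply div_nonneg (by linarith) hden.le
    have hq1 : q < 1 := by
      rw [hq, div_lt_one hden]
      linarith
    refine ⟨(1 + q) / 2, by linarith, by linarith, ?_⟩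
    have h1 : q ≤ ((1 + q) / 2) ^ 2 := by nlinarith [sq_nonneg (1 - q)]
    have h2 : 0 < ((1 + q) / 2) ^ 2 := by positivity
    have h3 : q * ((r : ℝ) - 1 + ε / 2) = (r : ℝ) - 1 := by
      rw [hq, div_mul_cancel₀ _ hden.ne']
    have h4 : (r : ℝ) - 1 ≤ ((r : ℝ) - 1 + ε / 2) * ((1 + q) / 2) ^ 2 := by
      have := mul_le_mul_of_nonneg_right h1 hden.le
      linarith
    have h5 : ((r : ℝ) - 1) / ((1 + q) / 2) ^ 2 ≤ (r : ℝ) - 1 + ε / 2 := by
      rw [div_le_iff₀ h2]
      exact h4
    linarith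
  -- the limit of the bound
  have hlim : Tendsto (fun N : ℕ =>
      2 * (Real.exp z * Real.exp ((z - z * Real.log z) * W N) * ll N / Real.log N) +
      (1 + Real.log N) / Real.log N * (((r : ℝ) - 1) * (W N / ll N) +
        (W (Nat.log 2 N + 1) + 1) / ll N) / (z ^ 2 * (W N / ll N) ^ 2)) atTop
      (𝓝 (2 * 0 + 1 * (((r : ℝ) - 1) * 1 + 0) / (z ^ 2 * 1 ^ 2))) := by
    refine ((t3 z hz0 hz1).const_mul 2).add ((t4.mul ((t1.const_mul _).add t2)).div
      ((t1.pow 2).const_mul _) ?_)
    positivity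
  have hlim2 : (2 * 0 + 1 * (((r : ℝ) - 1) * 1 + 0) / (z ^ 2 * 1 ^ 2)) < (r : ℝ) - 1 + ε := by
    have : (2 * 0 + 1 * (((r : ℝ) - 1) * 1 + 0) / (z ^ 2 * 1 ^ 2)) = ((r : ℝ) - 1) / z ^ 2 := by
      ring
    rw [this]
    exact hz
  filter_upwards [hlim.eventually (gt_mem_nhds hlim2), tendsto_ll.eventually_gt_atTop 0,
    tendsto_log_nat.eventually_ge_atTop 1, t1.eventually (lt_mem_nhds (show (0 : ℝ) < 1 by norm_num))]
    with N hN hll hL1 hW0
  intro A hA
  have hL : (0 : ℝ) < Real.log N := by linarith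
  set S := ∑ a ∈ A, 1 / (a : ℝ) with hS
  have hS0 : 0 ≤ S := sum_nonneg fun a _ => by positivity
  set E := Real.exp z * Real.exp ((z - z * Real.log z) * W N) with hE
  have hE0 : 0 ≤ E := by positivity
  have hWp : 0 < W N := by
    by_contra hcon
    have : W N = 0 := le_antisymm (not_lt.1 hcon) (W_nonneg N)
    rw [this, zero_div] at hW0
    exact lt_irrefl _ hW0
  have hWT := W_nonneg (Nat.log 2 N + 1)
  have hmain := main_ineq hA (W (Nat.log 2 N + 1) + 1) (fun a ha => rs_le ha)
  have hom := sum_om_ge hA.1 z hz0 hz1.le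
  rw [← hS, ← hE] at hom
  rw [← hS] at hmain
  have hrW : 0 ≤ ((r : ℝ) - 1) * W N + (W (Nat.log 2 N + 1) + 1) := by
    have : 0 ≤ ((r : ℝ) - 1) * W N := mul_nonneg (by linarith) hWp.le
    linarith
  have hkey : E ≤ S → (z * W N * (S - E)) ^ 2 ≤
      (1 + Real.log N) * (S * (((r : ℝ) - 1) * W N + (W (Nat.log 2 N + 1) + 1))) := by
    intro hES
    have h1 : (z * W N * (S - E)) ^ 2 ≤ (∑ a ∈ A, (om a : ℝ) / a) ^ 2 := by
      apply pow_le_pow_left₀ _ hom
      have : 0 ≤ S - E := by linarith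
      positivity
    refine h1.trans (hmain.trans ?_)
    exact mul_le_mul_of_nonneg_right (harm_le N) (mul_nonneg hS0 hrW)
  have hstep := real_step (S * ll N / Real.log N) (E * ll N / Real.log N) (W N / ll N)
    ((1 + Real.log N) / Real.log N) ((W (Nat.log 2 N + 1) + 1) / ll N) z r
    (by positivity) hW0 hz0 (by positivity) (by
      have h1 : ((r : ℝ) - 1) * (W N / ll N) + (W (Nat.log 2 N + 1) + 1) / ll N =
        (((r : ℝ) - 1) * W N + (W (Nat.log 2 N + 1) + 1)) / ll N := by ring
      rw [h1]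
      positivity) (by
      intro hES
      have hES' : E ≤ S := by
        have h1 : E * ll N ≤ S * ll N := by
          have := (div_le_div_iff_of_pos_right hL).1 hES
          exact this
        exact le_of_mul_le_mul_right h1 hll
      have h1 := hkey hES'
      have h2 : (z * (W N / ll N) * (S * ll N / Real.log N - E * ll N / Real.log N)) ^ 2 =
          (z * W N * (S - E)) ^ 2 / Real.log N ^ 2 := by
        field_simp
      have h3 : (1 + Real.log N) / Real.log N * (S * ll N / Real.log N *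
          (((r : ℝ) - 1) * (W N / ll N) + (W (Nat.log 2 N + 1) + 1) / ll N)) =
          (1 + Real.log N) * (S * (((r : ℝ) - 1) * W N + (W (Nat.log 2 N + 1) + 1))) /
            Real.log N ^ 2 := by
        field_simp
      rw [h2, h3]
      exact div_le_div_of_nonneg_right h1 (by positivity))
  have hfin : S * ll N / Real.log N < (r : ℝ) - 1 + ε := lt_of_le_of_lt hstep hN
  have h9 : S * ll N < ((r : ℝ) - 1 + ε) * Real.log N := by
    rwa [div_lt_iff₀ hL] at hfin
  rw [← mul_div_assoc, le_div_iff₀ (show (0 : ℝ) < Real.log (Real.log N) from hll)]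
  exact h9.le

end Pool.Agent.Helper16.UB
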